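import Pool.Agent.Q294.Multi.Seq

/-!
# MP_3d955a: multicolour threshold-2 bootstrap dynamics, three or more stages

A site in state 0 with three neighbours in state 2 stays in state 0 for ever. A square whose four
corners are such sites and which contains no site in a state at least 3 at time 0 never contains
one. For fixed densities of the states 0 and 2 such squares around the origin exist almost surely,
so the origin never reaches the state 3 with probability close to one if the densities of the
states `3, …, κ` are small enough.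
-/

open MeasureTheory ProbabilityTheory Filter Topology
open scoped ENNReal

namespace Pool.Agent.Results.MP_3d955a_pr.StuckCorners

open Q294.Multi

/-- Q1 is false for every `κ ≥ 3`; for all exponents there is a sequence of parameter vectors as in
Q1 along which the probability tends to zero; and for fixed densities of the states 0 and 2, the
probability that the origin ever reaches a state at least 3 is small when the total density of
the states at least 3 is small. -/
theorem result (κ : ℕ) (hκ : 3 ≤ κ) :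
    ¬ Q1 κ ∧
    (∀ γ : ℕ → ℝ, ∃ p : ℕ → PMF ℕ, (∀ n, IsParam κ (p n)) ∧
      Tendsto (fun n => (p n 1).toReal) atTop (𝓝 0) ∧
      (∀ i, 2 ≤ i → i ≤ κ →
        Tendsto (fun n => (p n i).toReal / (p n (i - 1)).toReal ^ γ i) atTop (𝓝 0)) ∧
      Tendsto (fun n => law (p n) {ξ | ∃ t, evol κ ξ t 0 = κ}) atTop (𝓝 0)) ∧
    (∀ r ε : ℝ, 0 < r → 0 < ε → ∃ δ : ℝ, 0 < δ ∧ ∀ p : PMF ℕ,
      ENNReal.ofReal r ≤ p 0 → ENNReal.ofReal r ≤ p 2 →
      p.toMeasure {i | 3 ≤ i} ≤ ENNReal.ofReal δ →
      law p {ξ | ∃ t, 3 ≤ evol κ ξ t 0} ≤ ENNReal.ofReal ε) := by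
  have hseq : ∀ γ : ℕ → ℝ, ∃ p : ℕ → PMF ℕ, (∀ n, IsParam κ (p n)) ∧
      Tendsto (fun n => (p n 1).toReal) atTop (𝓝 0) ∧
      (∀ i, 2 ≤ i → i ≤ κ →
        Tendsto (fun n => (p n i).toReal / (p n (i - 1)).toReal ^ γ i) atTop (𝓝 0)) ∧
      Tendsto (fun n => law (p n) {ξ | ∃ t, evol κ ξ t 0 = κ}) atTop (𝓝 0) := by
    intro γ
    obtain ⟨p, h1, h2, h3, h4⟩ := exists_seq hκ γ
    refine ⟨p, h1, h2, h3, ?_⟩
    refine tendsto_of_tendsto_of_tendsto_of_le_of_le tendsto_const_nhds h4
      (fun _ => zero_le) (fun n => measure_mono ?_)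
    rintro ξ ⟨t, ht⟩
    exact ⟨t, by omega⟩
  refine ⟨?_, hseq, fun r ε hr hε => uniform_bound κ hr hε⟩
  rintro ⟨γ, -, h⟩
  obtain ⟨p, h1, h2, h3, h4⟩ := hseq γ
  have h5 := h p h1 h2 h3
  exact one_ne_zero (tendsto_nhds_unique h5 h4)

end Pool.Agent.Results.MP_3d955a_pr.StuckCorners
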